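import Pool.Agent.Y223.G.Stm2

/-!
Project G (helper223), job G-RFT: the graded algebra of a chart is of finite type
-/

set_option autoImplicit false

namespace Pool.Agent.Y71.G

open Pool.Agent.Y223.G IsLocalRing

theorem wt_zero (l : ℕ) : wt l 0 = 0 := by
  unfold wt
  split_ifs <;> simp

theorem wt_sub (l : ℕ) {i j a : ℕ} (h : a ≤ i + j) : wt l a ≤ wt l i + wt l j := by
  unfold wt
  split_ifs
  · omega
  · rw [← add_mul]
    exact Nat.mul_le_mul_right l h

section leib

variable {k K : Type} [CommRing k] [Field K] [Algebra k K] (τ : K ≃ₐ[k] K)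

theorem df_add (x y : K) : df τ (x + y) = df τ x + df τ y := by
  unfold df
  rw [map_add]
  ring

theorem df_zero : df τ (0 : K) = 0 := by
  unfold df
  rw [map_zero, sub_zero]

theorem df_neg (x : K) : df τ (-x) = -df τ x := by
  unfold df
  rw [map_neg]
  ring

theorem df_mul (x y : K) : df τ (x * y) = df τ x * y + x * df τ y + df τ x * df τ y := by
  unfold df
  rw [map_mul]
  ring

theorem dfi_add (a : ℕ) (x y : K) : (df τ)^[a] (x + y) = (df τ)^[a] x + (df τ)^[a] y := by
  induction a with
  | zero => rfl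
  | succ a ih => rw [Function.iterate_succ_apply', Function.iterate_succ_apply',
      Function.iterate_succ_apply', ih, df_add]

theorem dfi_zero (a : ℕ) : (df τ)^[a] (0 : K) = 0 := by
  induction a with
  | zero => rfl
  | succ a ih => rw [Function.iterate_succ_apply', ih, df_zero]

/-- the terms in the Leibniz rule -/
def NN (x y : K) (a : ℕ) : AddSubgroup K :=
  AddSubgroup.closure {z | ∃ i j, i ≤ a ∧ j ≤ a ∧ a ≤ i + j ∧ z = (df τ)^[i] x * (df τ)^[j] y}

theorem leib (x y : K) (a : ℕ) : (df τ)^[a] (x * y) ∈ NN τ x y a := by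
  induction a with
  | zero => exact AddSubgroup.subset_closure ⟨0, 0, le_rfl, le_rfl, le_rfl, rfl⟩
  | succ a ih =>
    rw [Function.iterate_succ_apply']
    have h : ∀ z ∈ NN τ x y a, df τ z ∈ NN τ x y (a + 1) := by
      intro z hz
      refine AddSubgroup.closure_induction (p := fun z _ => df τ z ∈ NN τ x y (a + 1))
        ?_ ?_ ?_ ?_ hz
      · rintro z ⟨i, j, hi, hj, hij, rfl⟩
        rw [df_mul, ← Function.iterate_succ_apply' (df τ), ← Function.iterate_succ_apply' (df τ)]
        refine AddSubgroup.add_mem _ (AddSubgroup.add_mem _ ?_ ?_) ?_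
        · exact AddSubgroup.subset_closure ⟨i + 1, j, by omega, by omega, by omega, rfl⟩
        · exact AddSubgroup.subset_closure ⟨i, j + 1, by omega, by omega, by omega, rfl⟩
        · exact AddSubgroup.subset_closure ⟨i + 1, j + 1, by omega, by omega, by omega, rfl⟩
      · rw [df_zero]
        exact AddSubgroup.zero_mem _
      · intro u v _ _ hu hv
        rw [df_add]
        exact AddSubgroup.add_mem _ hu hv
      · intro u _ hu
        rw [df_neg]
        exact AddSubgroup.neg_mem _ hu
    exact h _ ih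

/-- the elements with homogeneous elements in `R` -/
noncomputable def SS (p l : ℕ) (R : Subalgebra k (LP K)) (hR : hm (-1) (1 : K) ∈ R) :
    Subalgebra k K where
  carrier := {c | ∀ a < p, hm (wt l a) ((df τ)^[a] c) ∈ R}
  mul_mem' := by
    intro x y hx hy a ha
    have h : ∀ z ∈ NN τ x y a, hm (wt l a) z ∈ R := by
      intro z hz
      refine AddSubgroup.closure_induction (p := fun z _ => hm (wt l a) z ∈ R) ?_ ?_ ?_ ?_ hz
      · rintro z ⟨i, j, hi, hj, hij, rfl⟩
        have h1 := R.mul_mem (R.mul_mem (hx i (by omega)) (hy j (by omega)))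
          (R.pow_mem hR (wt l i + wt l j - wt l a))
        have h2 := wt_sub l hij
        rw [hm_pow, hm_mul, hm_mul, one_pow, mul_one] at h1
        have h3 : (wt l i : ℤ) + (wt l j : ℤ) + ((wt l i + wt l j - wt l a : ℕ) : ℤ) * -1 =
            (wt l a : ℤ) := by
          rw [Nat.cast_sub h2]
          push_cast
          ring
        rwa [h3] at h1
      · rw [hm_zero]
        exact R.zero_mem
      · intro u v _ _ hu hv
        rw [hm_add]
        exact R.add_mem hu hv
      · intro u _ hu
        rw [hm_neg]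
        exact R.neg_mem hu
    exact h _ (leib τ x y a)
  add_mem' := by
    intro x y hx hy a ha
    rw [dfi_add, hm_add]
    exact R.add_mem (hx a ha) (hy a ha)
  algebraMap_mem' := by
    intro r a ha
    rcases a with _ | a
    · rw [wt_zero]
      exact R.algebraMap_mem r
    · rw [Function.iterate_succ_apply]
      have h1 : df τ (algebraMap k K r) = 0 := by
        unfold df
        rw [AlgEquiv.commutes, sub_self]
      rw [h1, dfi_zero, hm_zero]
      exact R.zero_mem

end leib

/-- RFT -/
theorem t_RFT : S_RFT := by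
  intro k O K _ _ _ _ _ _ _ _ _ _ p τ t 𝔓 l hW C hC hCf
  have hp := hW.pp.pos
  have hNO : IsNoetherianRing O := inferInstance
  obtain ⟨G, hG⟩ := hW.ft.out
  obtain ⟨F, hF⟩ := (Subalgebra.fg_iff_finiteType C).2 hCf
  obtain ⟨E, hE⟩ := (isNoetherianRing_iff_ideal_fg O).1 hNO 𝔓
  set F' : Set K := (F : Set K) ∪ (algebraMap O K) '' (G : Set O) with hF'
  set gen : Set (LP K) := {hm (-1) 1} ∪ (fun e : O => hm 1 (algebraMap O K e)) '' (E : Set O) ∪
    (fun q : K × ℕ => hm (wt l q.2) ((df τ)^[q.2] q.1)) '' (F' ×ˢ Set.Iio p) with hgen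
  have hfin : gen.Finite := by
    refine ((Set.finite_singleton _).union (E.finite_toSet.image _)).union (Set.Finite.image _ ?_)
    exact ((F.finite_toSet.union (G.finite_toSet.image _)).prod (Set.finite_Iio p))
  set R : Subalgebra k (LP K) := Algebra.adjoin k gen with hR
  have hR1 : hm (-1) (1 : K) ∈ R := Algebra.subset_adjoin (Or.inl (Or.inl rfl))
  have hFS : ∀ c ∈ F', c ∈ SS τ p l R hR1 := by
    intro c hc a ha
    exact Algebra.subset_adjoin (Or.inr ⟨(c, a), ⟨hc, ha⟩, rfl⟩)
  have hOS : ∀ o : O, algebraMap O K o ∈ SS τ p l R hR1 := by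
    have h1 : Algebra.adjoin k (G : Set O) ≤
        (SS τ p l R hR1).comap (IsScalarTower.toAlgHom k O K) := by
      rw [Algebra.adjoin_le_iff]
      intro g hg
      exact hFS _ (Or.inr ⟨g, hg, rfl⟩)
    rw [hG] at h1
    exact fun o => h1 (Algebra.mem_top (R := k) (A := O) (x := o))
  have hCS : ∀ c ∈ C, c ∈ SS τ p l R hR1 := by
    intro c hc
    rw [← hF] at hc
    induction hc using Algebra.adjoin_induction with
    | mem x hx => exact hFS _ (Or.inl hx)
    | algebraMap r => exact hOS r
    | add x y _ _ hx hy => exact (SS τ p l R hR1).add_mem hx hy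
    | mul x y _ _ hx hy => exact (SS τ p l R hR1).mul_mem hx hy
  have hle : RR k τ p 𝔓 l C ≤ R := by
    unfold RR
    rw [Algebra.adjoin_le_iff]
    rintro f ((hf | ⟨e, he, rfl⟩) | ⟨a, c, hc, ha, rfl⟩)
    · rw [Set.mem_singleton_iff.1 hf]
      exact hR1
    · rw [← hE] at he
      refine Submodule.span_induction (p := fun e _ => hm 1 (algebraMap O K e) ∈ R)
        ?_ ?_ ?_ ?_ he
      · intro e he
        exact Algebra.subset_adjoin (Or.inl (Or.inr ⟨e, he, rfl⟩))
      · rw [map_zero, hm_zero]
        exact R.zero_mem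
      · intro u v _ _ hu hv
        rw [map_add, hm_add]
        exact R.add_mem hu hv
      · intro b u _ hu
        have h1 := hOS b 0 hp
        rw [wt_zero] at h1
        have h2 := R.mul_mem h1 hu
        rw [hm_mul] at h2
        rw [smul_eq_mul, map_mul]
        have h3 : ((0 : ℕ) : ℤ) + 1 = 1 := by norm_num
        rw [h3] at h2
        exact h2
    · exact hCS c hc a ha
  have hge : R ≤ RR k τ p 𝔓 l C := by
    rw [hR, Algebra.adjoin_le_iff]
    have hFC : ∀ c ∈ F', c ∈ C := by
      rintro c (hc | ⟨g, _, rfl⟩)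
      · rw [← hF]
        exact Algebra.subset_adjoin hc
      · exact C.algebraMap_mem g
    rintro f ((hf | ⟨e, he, rfl⟩) | ⟨⟨c, a⟩, ⟨hc, ha⟩, rfl⟩)
    · exact Algebra.subset_adjoin (Or.inl (Or.inl hf))
    · refine Algebra.subset_adjoin (Or.inl (Or.inr ⟨e, ?_, rfl⟩))
      rw [← hE]
      exact Submodule.subset_span he
    · exact Algebra.subset_adjoin (Or.inr ⟨a, c, hFC c hc, ha, rfl⟩)
  rw [← Subalgebra.fg_iff_finiteType, le_antisymm hle hge]
  exact Subalgebra.fg_def.2 ⟨gen, hfin, rfl⟩

end Pool.Agent.Y71.G
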